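import Pool.Agent.V5helper32.CM.ALL2

set_option autoImplicit false

/-! # Character sums over Calogero-Moser families

`W` is a finite reflection group on `V`, `k` a parameter, `τ` a regular element of finite order of
the normaliser of `W` in `GL(V)` which fixes `k`.  `σ` is the automorphism of the rational Cherednik
algebra `H_k` (at `t = 0`) induced by `τ`, and `Q` is the ideal of the unique component of maximal
dimension of the `τ`-fixed points of the Calogero-Moser space.  An equivariant isomorphism of this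
component with the Calogero-Moser space of `W^τ` acting on `V^τ`, for some parameter `l`, is given by
a surjective algebra homomorphism `π` from the centre of `H_k` to the centre of `H_l(V^τ, W^τ)` with
kernel `Q`, compatible with the actions of `ℂˣ`.  Let `p` be a `ℂˣ`-fixed point of the component and
`p'` the corresponding point for `W^τ`.  Then the sum of `|χ~(τ)|²` over the `τ`-stable `χ` in the
family of `p` equals the sum of `ψ(1)²` over the `ψ` in the family of `p'`.

Outline of the proof.  Let `e` be the idempotent of the trivial character of `W`, and let the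
automorphism of `τ` act on the module `He` over `H = H_k`.  Localise at `p` and take the trace of `τ`
on the Euler characteristic of the Koszul complex of `He` for basic invariants of `W` in `ℂ[V]` and
`ℂ[V^*]`, chosen as eigenvectors of `τ`; those with an eigenvalue different from one are first
divided out.  As `He` is free over these invariants, this trace is the left-hand side.  By devissage
over the skew group algebra of the centre, the Euler characteristic with respect to the
`τ`-invariant basic invariants only depends on the generic ranks along the components of the fixed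
points of maximal dimension: the left-hand side is a constant times the Euler characteristic of the
coordinate ring of the component, localised at `p`.  The same holds for `W^τ` with its own system of
parameters, and the two systems of parameters are compared by Hilbert series.  So the two sides are
proportional with a factor which does not depend on `p`, and the factor is one because the sums over
all `p` are both equal to `|W^τ|`.  Springer's theorem, that `W^τ` acts on `V^τ` as a reflection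
group, is proved on the way (in the style of the theorem of Shephard and Todd). -/

namespace Pool.Agent.Results.MP_c89606_al.CharacterSums

open Pool.Agent.V5helper32.CM

section

variable {V : Type} [AddCommGroup V] [Module ℂ V]

/-- A parameter `k = (k_{H,j})` for `W`, with a choice of the linear forms `α_H` and of the vectors
`α_H^∨` (called `β H`). -/
structure Param (W : Subgroup (V ≃ₗ[ℂ] V)) where
  k : Submodule ℂ V → ℕ → ℂ
  α : Submodule ℂ V → Module.Dual ℂ V
  β : Submodule ℂ V → V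
  par : IsPar W k
  roots : IsRoots W α β

variable {W : Subgroup (V ≃ₗ[ℂ] V)}

/-- The right-hand side of the commutation relation for `[y, x]`. -/
noncomputable abbrev Param.κ (P : Param W) : V → Module.Dual ℂ V → W → ℂ := kap W P.k P.α P.β

/-- The rational Cherednik algebra `H_k` at `t = 0`. -/
abbrev Param.H (P : Param W) : Type := Rca W P.κ

/-- The automorphisms of `H_k`. -/
abbrev Param.Aut (P : Param W) : Type := P.H ≃ₐ[ℂ] P.H

/-- The endomorphisms of `H_k`. -/
abbrev Param.End (P : Param W) : Type := P.H →ₐ[ℂ] P.H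

/-- The centre of `H_k`. -/
abbrev Param.Z (P : Param W) : Type := Zc P.H

/-- The ideals of the centre. -/
abbrev Param.Idl (P : Param W) : Type := Ideal P.Z

/-- The points of the Calogero-Moser space. -/
abbrev Param.Pt (P : Param W) : Type := P.Z →ₐ[ℂ] ℂ

/-- `γ` gives the action of `s ∈ ℂˣ` on `H_k`: `x ↦ s x`, `y ↦ s⁻¹ y`, `w ↦ w`. -/
def Param.IsScaling (P : Param W) (s : ℂˣ) (γ : P.End) : Prop :=
  (∀ ξ, γ (Rca.X _ ξ) = (s : ℂ) • Rca.X _ ξ) ∧
  (∀ v, γ (Rca.Y _ v) = ((s⁻¹ : ℂˣ) : ℂ) • Rca.Y _ v) ∧ ∀ w, γ (Rca.G _ w) = Rca.G _ w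

/-- The point `p` of the Calogero-Moser space is fixed by `ℂˣ`. -/
def Param.IsFixed (P : Param W) (p : P.Pt) : Prop :=
  ∀ (s : ℂˣ) (γ : P.End), P.IsScaling s γ → ∀ a b : P.Z, (b : P.H) = γ a → p b = p a

/-- `τ` is an element of finite order of the normaliser of `W` which fixes the parameter, and it is
regular: it fixes a vector with trivial stabiliser in `W`. -/
structure Param.IsRegular (P : Param W) (τ : V ≃ₗ[ℂ] V) : Prop where
  fin : ∃ m, 0 < m ∧ τ ^ m = 1
  norm : ∀ w ∈ W, τ * w * τ⁻¹ ∈ W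
  fix : ∀ H ∈ hyps W, ∀ j, P.k (H.map (τ : V →ₗ[ℂ] V)) j = P.k H j
  reg : ∃ v, τ v = v ∧ ∀ w ∈ W, w v = v → w = 1

/-- `σ` is the automorphism of `H_k` induced by `τ`. -/
def Param.IsInduced (P : Param W) (τ : V ≃ₗ[ℂ] V) (σ : P.Aut) : Prop :=
  (∀ ξ, σ (Rca.X _ ξ) = Rca.X _ (ξ ∘ₗ ((τ⁻¹ : V ≃ₗ[ℂ] V) : V →ₗ[ℂ] V))) ∧
  (∀ v, σ (Rca.Y _ v) = Rca.Y _ (τ v)) ∧
  ∀ w w' : W, (w' : V ≃ₗ[ℂ] V) = τ * w * τ⁻¹ → σ (Rca.G _ w) = Rca.G _ w'

/-- `Q` is the ideal of the unique irreducible closed subset of maximal dimension of the `σ`-fixed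
points of the Calogero-Moser space. -/
def Param.IsMax (P : Param W) (σ : P.Aut) (Q : P.Idl) : Prop := IsMaxQ σ Q

/-- The group generated by `W` and `τ`. -/
abbrev Wτ (W : Subgroup (V ≃ₗ[ℂ] V)) (τ : V ≃ₗ[ℂ] V) : Subgroup (V ≃ₗ[ℂ] V) :=
  Subgroup.closure ((W : Set (V ≃ₗ[ℂ] V)) ∪ {τ})

/-- The representation `ρ` of `W` is isomorphic to its conjugate by `τ`. -/
def IsStable (τ : V ≃ₗ[ℂ] V) {E : Type} [AddCommGroup E] [Module ℂ E]
    (ρ : Representation ℂ W E) : Prop :=
  ∃ e : E ≃ₗ[ℂ] E, ∀ w w' : W, (w' : V ≃ₗ[ℂ] V) = τ * w * τ⁻¹ → ∀ x, e (ρ w x) = ρ w' (e x)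

/-- Extensions of the `τ`-stable representations of the system `S` to the group generated by `W` and
`τ`. -/
structure Extensions (τ : V ≃ₗ[ℂ] V) (S : IrrSys W) where
  ρ : ∀ i, IsStable τ (S.ρ i) → Representation ℂ (Wτ W τ) (S.E i)
  ext : ∀ i h (w : W) (g : Wτ W τ), (g : V ≃ₗ[ℂ] V) = w → ρ i h g = S.ρ i w

/-- `|χ~(τ)|²` for the character `χ~` of the representation `ρ` of the group generated by `W` and
`τ`. -/
noncomputable def charSq (τ : V ≃ₗ[ℂ] V) {E : Type} [AddCommGroup E] [Module ℂ E]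
    (ρ : Representation ℂ (Wτ W τ) E) : ℝ :=
  ‖LinearMap.trace ℂ E (ρ ⟨τ, Subgroup.subset_closure (Or.inr rfl)⟩)‖ ^ 2

open Classical in
/-- The sum of `|χ~(τ)|²` over the `τ`-stable members of the family of `p`. -/
noncomputable def Param.sumSq (P : Param W) (p : P.Pt) {τ : V ≃ₗ[ℂ] V} {S : IrrSys W}
    (T : Extensions τ S) : ℝ :=
  ∑ i, if h : Rca.InFam P.κ p (S.ρ i) ∧ IsStable τ (S.ρ i) then charSq τ (T.ρ i h.2) else 0

open Classical in
/-- The sum of `χ(1)²` over the members of the family of `p`. -/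
noncomputable def Param.sumDim (P : Param W) (p : P.Pt) (S : IrrSys W) : ℝ :=
  ∑ i, if Rca.InFam P.κ p (S.ρ i) then (Module.finrank ℂ (S.E i) : ℝ) ^ 2 else 0

end

/-- The homomorphism `π` between the centres of `H` and `H'` is surjective with kernel `Q`, and it
commutes with the endomorphisms `γ` of `H` and `γ'` of `H'` whenever `A s γ` and `A' s γ'` hold
(`γ` and `γ'` give the actions of the same `s ∈ ℂˣ`). -/
structure IsEquivIso {H H' : Type} [Ring H] [Algebra ℂ H] [Ring H'] [Algebra ℂ H']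
    (A : ℂˣ → (H →ₐ[ℂ] H) → Prop) (A' : ℂˣ → (H' →ₐ[ℂ] H') → Prop) (Q : Ideal (Zc H))
    (π : Zc H →ₐ[ℂ] Zc H') : Prop where
  surj : Function.Surjective π
  ker : ∀ z, π z = 0 ↔ z ∈ Q
  equiv : ∀ (s : ℂˣ) (γ : H →ₐ[ℂ] H) (γ' : H' →ₐ[ℂ] H'), A s γ → A' s γ' →
    ∀ a b : Zc H, (b : H) = γ a → (π b : H') = γ' (π a)

section

variable {V V' : Type} [AddCommGroup V] [Module ℂ V] [AddCommGroup V'] [Module ℂ V']

/-- `ι` identifies `V'` with `V^τ`, and `W'` is the group of automorphisms of `V'` given by the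
centraliser `W^τ` of `τ` in `W`. -/
structure IsFixedPart (W : Subgroup (V ≃ₗ[ℂ] V)) (τ : V ≃ₗ[ℂ] V) (ι : V' →ₗ[ℂ] V)
    (W' : Subgroup (V' ≃ₗ[ℂ] V')) : Prop where
  inj : Function.Injective ι
  range : ∀ v, v ∈ LinearMap.range ι ↔ τ v = v
  grp : ∀ g, g ∈ W' ↔ ∃ w ∈ W, w * τ = τ * w ∧ ∀ x, ι (g x) = w (ι x)

variable {W : Subgroup (V ≃ₗ[ℂ] V)} {W' : Subgroup (V' ≃ₗ[ℂ] V')}

/-- Homomorphisms between the centres. -/
abbrev Param.Hom (P : Param W) (P' : Param W') : Type := P.Z →ₐ[ℂ] P'.Z

/-- `π` is the homomorphism on functions given by a `ℂˣ`-equivariant isomorphism of the closed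
subvariety with ideal `Q` of the Calogero-Moser space for `P` with the one for `P'`. -/
def Param.IsIso {P : Param W} {P' : Param W'} (Q : P.Idl) (π : P.Hom P') : Prop :=
  IsEquivIso P.IsScaling P'.IsScaling Q π

/-- The point `p` corresponds to the point `p'`. -/
def Param.Corr {P : Param W} {P' : Param W'} (π : P.Hom P') (p : P.Pt) (p' : P'.Pt) : Prop :=
  ∀ a, p' (π a) = p a

end

theorem result {V V' : Type} [AddCommGroup V] [Module ℂ V] [FiniteDimensional ℂ V]
    [AddCommGroup V'] [Module ℂ V'] (W : Subgroup (V ≃ₗ[ℂ] V)) (hW : IsReflGrp W) (P : Param W)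
    (τ : V ≃ₗ[ℂ] V) (hτ : P.IsRegular τ) (ι : V' →ₗ[ℂ] V) (W' : Subgroup (V' ≃ₗ[ℂ] V'))
    (hW' : IsFixedPart W τ ι W') :
    ∃ σ : P.Aut, P.IsInduced τ σ ∧ ∀ Q : P.Idl, P.IsMax σ Q →
      ∀ (P' : Param W') (π : P.Hom P'), Param.IsIso Q π →
      ∀ (p : P.Pt) (p' : P'.Pt), P.IsFixed p → Param.Corr π p p' →
      ∀ (S : IrrSys W) (S' : IrrSys W') (T : Extensions τ S),
        P.sumSq p T = P'.sumDim p' S' := by
  classical
  obtain ⟨hKAP, hRD, hFX, hINV, hBV, hOM, hMAIN⟩ := a_geom
  obtain ⟨⟨m, hm, hτm⟩, hτW, hτk, hreg⟩ := hτ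
  obtain ⟨σ, h1, h2, h3⟩ := Pool.Agent.V5helper68.CM.SIG.t_SIG V W hW P.k P.par P.α P.β P.roots
    τ m hm hτm hτW hτk
  have hWr : IsReflGrp W' := reflGrp_fix W τ ι hW'.inj hW'.range W' hW'.grp
    (a_SPR V W hW τ m hm hτm hτW hreg)
  refine ⟨σ, ⟨h1, h2, h3⟩, ?_⟩
  intro Q hQ P' π hπ p p' hp hp' S S' T
  have hsc : ∀ {V : Type} [AddCommGroup V] [Module ℂ V] {W : Subgroup (V ≃ₗ[ℂ] V)} (P : Param W)
      (s : ℂˣ), P.IsScaling s (Rca.gam P.κ s) := by
    intro V _ _ W P s
    exact ⟨fun ξ => Pool.Agent.V5helper19.CM.Fullx.gam_X P.κ s ξ,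
      fun v => Pool.Agent.V5helper19.CM.Fullx.gam_Y P.κ s v,
      fun w => Pool.Agent.V5helper19.CM.Fullx.gam_G P.κ s w⟩
  have hmain := final_thm hKAP hRD hFX hINV hBV hOM hMAIN W hW P.k P.par P.α P.β P.roots τ m hm hτm
    hτW hreg σ h1 h2 h3 Q hQ ι hW'.inj hW'.range W' hW'.grp hWr P'.k P'.par P'.α P'.β P'.roots
    π hπ.surj hπ.ker (fun s a b hab => hπ.equiv s _ _ (hsc P s) (hsc P' s) a b hab) p
    (fun s a b hab => hp s _ (hsc P s) a b hab) p' hp' S S'
    (fun i => if h : IsStable τ (S.ρ i) then T.ρ i h else Representation.trivial ℂ _ _)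
    (fun i hi w g hg => by
      have hi' : IsStable τ (S.ρ i) := hi
      rw [dif_pos hi']
      exact T.ext i hi' w g hg)
  have e1 : P.sumSq p T = famSum (kap W P.k P.α P.β) p τ S
      (fun i => if h : IsStable τ (S.ρ i) then T.ρ i h else Representation.trivial ℂ _ _) := by
    unfold Param.sumSq famSum
    refine Finset.sum_congr rfl fun i _ => ?_
    by_cases h : Rca.InFam (kap W P.k P.α P.β) p (S.ρ i) ∧ IsStable τ (S.ρ i)
    · have h' : Rca.InFam (kap W P.k P.α P.β) p (S.ρ i) ∧ Stable τ S i := h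
      rw [dif_pos h, if_pos h']
      have h3 : (if h : IsStable τ (S.ρ i) then T.ρ i h else Representation.trivial ℂ _ _) =
          T.ρ i h.2 := dif_pos h.2
      change _ = ‖LinearMap.trace ℂ (S.E i) ((if h : IsStable τ (S.ρ i) then T.ρ i h else
        Representation.trivial ℂ _ _) _)‖ ^ 2
      rw [h3]
      rfl
    · have h' : ¬ (Rca.InFam (kap W P.k P.α P.β) p (S.ρ i) ∧ Stable τ S i) := h
      rw [dif_neg h, if_neg h']
  rw [e1, hmain]
  rfl

end Pool.Agent.Results.MP_c89606_al.CharacterSums
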